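import Pool.Agent.TH235.PQ.Base

/-!
# PQ-COMB: weighted count with greedy selection and factorisation (second proof)

`comb (hp : PAIR) : COMB`, statements of `Pool.Agent.TH235.PQ.Base`.
-/

set_option autoImplicit false
set_option linter.unusedSectionVars false
set_option linter.unusedSimpArgs false

open scoped BigOperators
open Finset

namespace Pool.Agent.TH287.PQ

open Pool.Agent.TH235.PP Pool.Agent.TH235.PQ

section gen

variable {ι κ : Type} [Fintype ι] [DecidableEq ι] [Fintype κ]

open Classical in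
/-- sum over the functions with value `e` outside `P` -/
noncomputable def Sp (e : κ) (P : Finset ι) (F : (ι → κ) → ℝ) : ℝ :=
  ∑ c ∈ univ.filter (fun c : ι → κ => ∀ b, b ∉ P → c b = e), F c

/-- `F` depends only on the coordinates in `A` -/
def Dep (A : Finset ι) (F : (ι → κ) → ℝ) : Prop := ∀ c c' : ι → κ, (∀ b ∈ A, c b = c' b) → F c = F c'

theorem Sp_union (e : κ) {A B : Finset ι} (hAB : Disjoint A B) {F H : (ι → κ) → ℝ}
    (hF : Dep A F) (hH : Dep B H) :
    Sp e (A ∪ B) (fun c => F c * H c) = Sp e A F * Sp e B H := by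
  classical
  unfold Sp
  rw [Finset.sum_mul_sum, ← Finset.sum_product']
  refine Finset.sum_nbij' (fun c => ((fun b => if b ∈ A then c b else e),
      (fun b => if b ∈ B then c b else e)))
    (fun p => fun b => if b ∈ A then p.1 b else p.2 b) ?_ ?_ ?_ ?_ ?_
  · intro c _
    rw [mem_product]
    constructor
    · rw [mem_filter]
      refine ⟨mem_univ _, fun b hb => ?_⟩
      simp [hb]
    · rw [mem_filter]
      refine ⟨mem_univ _, fun b hb => ?_⟩
      simp [hb]
  · intro p hp
    rw [mem_product, mem_filter, mem_filter] at hp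
    rw [mem_filter]
    refine ⟨mem_univ _, fun b hb => ?_⟩
    rw [mem_union, not_or] at hb
    simp only [hb.1, if_false]
    exact hp.2.2 b hb.2
  · intro c hc
    rw [mem_filter] at hc
    funext b
    by_cases hA : b ∈ A
    · simp [hA]
    · by_cases hB : b ∈ B
      · simp [hA, hB]
      · simp only [hA, hB, if_false]
        exact (hc.2 b (by rw [mem_union, not_or]; exact ⟨hA, hB⟩)).symm
  · intro p hp
    rw [mem_product, mem_filter, mem_filter] at hp
    ext b
    · by_cases hA : b ∈ A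
      · simp [hA]
      · simp only [hA, if_false]
        exact (hp.1.2 b hA).symm
    · by_cases hB : b ∈ B
      · have hA : b ∉ A := fun h => (Finset.disjoint_left.mp hAB) h hB
        simp [hA, hB]
      · simp only [hB, if_false]
        exact (hp.2.2 b hB).symm
  · intro c _
    rw [hF c (fun b => if b ∈ A then c b else e) (fun b hb => by simp [hb]),
      hH c (fun b => if b ∈ B then c b else e) (fun b hb => by simp [hb])]

theorem Sp_single (e : κ) (b : ι) (f : κ → ℝ) :
    Sp e {b} (fun c => f (c b)) = ∑ T, f T := by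
  classical
  unfold Sp
  refine Finset.sum_nbij' (fun c => c b) (fun T => fun i => if i = b then T else e) ?_ ?_ ?_ ?_ ?_
  · intro c _; exact mem_univ _
  · intro T _
    rw [mem_filter]
    refine ⟨mem_univ _, fun i hi => ?_⟩
    rw [mem_singleton] at hi
    simp [hi]
  · intro c hc
    rw [mem_filter] at hc
    funext i
    by_cases hi : i = b
    · simp [hi]
    · simp only [hi, if_false]
      exact (hc.2 i (by rw [mem_singleton]; exact hi)).symm
  · intro T _
    simp
  · intro c _; rfl

theorem Sp_pair (e : κ) {b b' : ι} (hb : b ≠ b') (f : κ → κ → ℝ) :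
    Sp e {b, b'} (fun c => f (c b) (c b')) = ∑ T, ∑ T', f T T' := by
  classical
  unfold Sp
  rw [← Finset.sum_product']
  refine Finset.sum_nbij' (fun c => (c b, c b'))
    (fun p => fun i => if i = b then p.1 else if i = b' then p.2 else e) ?_ ?_ ?_ ?_ ?_
  · intro c _; simp
  · intro p _
    rw [mem_filter]
    refine ⟨mem_univ _, fun i hi => ?_⟩
    rw [mem_insert, mem_singleton, not_or] at hi
    simp [hi.1, hi.2]
  · intro c hc
    rw [mem_filter] at hc
    funext i
    by_cases hi : i = b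
    · simp [hi]
    · by_cases hi' : i = b'
      · simp only [hi, hi', if_false, if_true]
        subst hi'
        simp [hi]
      · simp only [hi, hi', if_false]
        exact (hc.2 i (by rw [mem_insert, mem_singleton, not_or]; exact ⟨hi, hi'⟩)).symm
  · intro p _
    ext
    · simp
    · simp [hb.symm]
  · intro c _; rfl

theorem Dep_prod (A : Finset ι) (w : κ → ℝ) : Dep A (fun c : ι → κ => ∏ b ∈ A, w (c b)) := by
  intro c c' h
  exact Finset.prod_congr rfl fun b hb => by rw [h b hb]

theorem Sp_prod (e : κ) (w : κ → ℝ) (A : Finset ι) :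
    Sp e A (fun c => ∏ b ∈ A, w (c b)) = (∑ T, w T) ^ A.card := by
  classical
  induction A using Finset.induction_on with
  | empty =>
    have h := Sp_union (ι := ι) e (A := ∅) (B := ∅) (disjoint_empty_left _)
      (F := fun _ => 1) (H := fun _ => 1) (fun _ _ _ => rfl) (fun _ _ _ => rfl)
    unfold Sp
    simp only [prod_empty, card_empty, pow_zero]
    rw [sum_const, nsmul_eq_mul, mul_one]
    have h1 : (univ.filter (fun c : ι → κ => ∀ b, b ∉ (∅ : Finset ι) → c b = e)) =
        {fun _ => e} := by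
      ext c
      simp only [notMem_empty, not_false_eq_true, forall_const, mem_filter, mem_univ, true_and,
        mem_singleton]
      constructor
      · intro h; funext b; exact h b
      · intro h b; rw [h]
    rw [h1]
    simp
  | insert b A hb ih =>
    have h := Sp_union e (A := {b}) (B := A) (disjoint_singleton_left.mpr hb)
      (F := fun c => w (c b)) (H := fun c => ∏ i ∈ A, w (c i))
      (fun c c' h => by show w (c b) = w (c' b); rw [h b (mem_singleton_self b)]) (Dep_prod A w)
    rw [Sp_single, ih] at h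
    have h2 : (insert b A) = {b} ∪ A := rfl
    rw [card_insert_of_notMem hb, pow_succ']
    rw [← h, h2]
    congr 1
    funext c
    rw [← h2, Finset.prod_insert hb]

theorem Sp_mono (e : κ) (P : Finset ι) {F H : (ι → κ) → ℝ} (h : ∀ c, F c ≤ H c) :
    Sp e P F ≤ Sp e P H := Finset.sum_le_sum fun c _ => h c

theorem Sp_nonneg (e : κ) (P : Finset ι) {F : (ι → κ) → ℝ} (h : ∀ c, 0 ≤ F c) :
    0 ≤ Sp e P F := Finset.sum_nonneg fun c _ => h c

theorem Sp_block (e : κ) (w : κ → ℝ) (hw : ∀ T, 0 ≤ w T) (ha : 1 ≤ ∑ T, w T) (G : κ → κ → ℝ)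
    (Pi : ℝ) (hG : ∀ T T', 0 ≤ G T T')
    (hPi : ∑ T, ∑ T', w T * w T' * G T T' ≤ Pi) (b : ι) (Nb : Finset ι) (hb : b ∉ Nb) :
    Sp e (insert b Nb) (fun c => (∏ i ∈ insert b Nb, w (c i)) * ∑ b' ∈ Nb, G (c b) (c b')) ≤
      Nb.card * Pi * (∑ T, w T) ^ (insert b Nb).card := by
  classical
  have h1 : Sp e (insert b Nb) (fun c => (∏ i ∈ insert b Nb, w (c i)) *
      ∑ b' ∈ Nb, G (c b) (c b')) = ∑ b' ∈ Nb, Sp e (insert b Nb) (fun c =>
        (∏ i ∈ insert b Nb, w (c i)) * G (c b) (c b')) := by
    unfold Sp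
    rw [Finset.sum_comm]
    exact Finset.sum_congr rfl fun c _ => Finset.mul_sum _ _ _
  rw [h1]
  have h2 : ∀ b' ∈ Nb, Sp e (insert b Nb) (fun c =>
        (∏ i ∈ insert b Nb, w (c i)) * G (c b) (c b')) ≤ Pi * (∑ T, w T) ^ (insert b Nb).card := by
    intro b' hb'
    have hne : b ≠ b' := fun h => hb (h ▸ hb')
    have hdis : Disjoint ({b, b'} : Finset ι) (Nb.erase b') := by
      rw [Finset.disjoint_left]
      intro i hi
      rw [mem_insert, mem_singleton] at hi
      rcases hi with rfl | rfl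
      · intro h; exact hb (mem_of_mem_erase h)
      · exact notMem_erase _ _
    have hun : insert b Nb = ({b, b'} : Finset ι) ∪ Nb.erase b' := by
      ext i
      simp only [mem_insert, mem_union, mem_singleton, mem_erase]
      constructor
      · rintro (h | h)
        · exact Or.inl (Or.inl h)
        · by_cases hi : i = b'
          · exact Or.inl (Or.inr hi)
          · exact Or.inr ⟨hi, h⟩
      · rintro ((h | h) | h)
        · exact Or.inl h
        · exact Or.inr (h ▸ hb')
        · exact Or.inr h.2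
    have hF : Dep ({b, b'} : Finset ι) (fun c : ι → κ => w (c b) * w (c b') * G (c b) (c b')) := by
      intro c c' h
      have e1 := h b (by simp)
      have e2 := h b' (by simp)
      simp only [e1, e2]
    have h3 := Sp_union e hdis hF (Dep_prod (Nb.erase b') w)
    rw [Sp_pair e hne (fun T T' => w T * w T' * G T T'), Sp_prod] at h3
    have h4 : (fun c : ι → κ => (∏ i ∈ insert b Nb, w (c i)) * G (c b) (c b')) =
        (fun c => (w (c b) * w (c b') * G (c b) (c b')) * ∏ i ∈ Nb.erase b', w (c i)) := by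
      funext c
      rw [Finset.prod_insert hb, ← Finset.mul_prod_erase Nb (fun i => w (c i)) hb']
      ring
    rw [h4, hun, h3]
    have hnn : 0 ≤ ∑ T, ∑ T', w T * w T' * G T T' :=
      Finset.sum_nonneg fun T _ => Finset.sum_nonneg fun T' _ =>
        mul_nonneg (mul_nonneg (hw T) (hw T')) (hG T T')
    apply mul_le_mul hPi _ (by positivity) (hnn.trans hPi)
    apply pow_le_pow_right₀ ha
    exact card_le_card subset_union_right
  calc _ ≤ ∑ _b' ∈ Nb, Pi * (∑ T, w T) ^ (insert b Nb).card := Finset.sum_le_sum h2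
    _ = _ := by rw [sum_const, nsmul_eq_mul]; ring

theorem Sp_main (e : κ) (w : κ → ℝ) (hw : ∀ T, 0 ≤ w T) (ha : 1 ≤ ∑ T, w T) (G : κ → κ → ℝ)
    (Pi : ℝ) (hG : ∀ T T', 0 ≤ G T T')
    (hPi : ∑ T, ∑ T', w T * w T' * G T T' ≤ Pi) (Nb : ι → Finset ι) (hb : ∀ b, b ∉ Nb b)
    (K : ℕ) (hK : ∀ b, (Nb b).card ≤ K) (S : Finset ι) : ∀ (P : Finset ι),
    (∀ b ∈ S, insert b (Nb b) ⊆ P) →
    (∀ b ∈ S, ∀ b' ∈ S, b ≠ b' → Disjoint (insert b (Nb b)) (insert b' (Nb b'))) →
    Sp e P (fun c => (∏ i ∈ P, w (c i)) * ∏ b ∈ S, ∑ b' ∈ Nb b, G (c b) (c b')) ≤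
      (K * Pi) ^ S.card * (∑ T, w T) ^ P.card := by
  classical
  have hPi0 : 0 ≤ Pi := by
    refine le_trans (Finset.sum_nonneg fun T _ => Finset.sum_nonneg fun T' _ =>
        mul_nonneg (mul_nonneg (hw T) (hw T')) (hG T T')) hPi
  induction S using Finset.induction_on with
  | empty =>
    intro P _ _
    simp only [prod_empty, mul_one, card_empty, pow_zero, one_mul]
    rw [Sp_prod]
  | insert b0 S hb0 ih =>
    intro P hP hdis
    set B := insert b0 (Nb b0) with hB
    have hBP : B ⊆ P := hP b0 (mem_insert_self _ _)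
    have hPu : P = B ∪ (P \ B) := by rw [union_comm, sdiff_union_of_subset hBP]
    have hd : Disjoint B (P \ B) := disjoint_sdiff
    have hsub : ∀ b ∈ S, insert b (Nb b) ⊆ P \ B := by
      intro b hbS i hi
      rw [mem_sdiff]
      refine ⟨hP b (mem_insert_of_mem hbS) hi, fun hiB => ?_⟩
      have hne : b0 ≠ b := fun h => hb0 (h ▸ hbS)
      exact (Finset.disjoint_left.mp (hdis b0 (mem_insert_self _ _) b (mem_insert_of_mem hbS) hne))
        hiB hi
    have ih' := ih (P \ B) hsub (fun b hb b' hb' hne => hdis b (mem_insert_of_mem hb) b'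
      (mem_insert_of_mem hb') hne)
    have hF : Dep B (fun c : ι → κ => (∏ i ∈ B, w (c i)) * ∑ b' ∈ Nb b0, G (c b0) (c b')) := by
      intro c c' h
      have e1 : ∏ i ∈ B, w (c i) = ∏ i ∈ B, w (c' i) := Dep_prod B w c c' h
      have e2 : c b0 = c' b0 := h b0 (mem_insert_self _ _)
      simp only [e1, e2]
      congr 1
      exact Finset.sum_congr rfl fun b' hb' => by rw [h b' (mem_insert_of_mem hb')]
    have hH : Dep (P \ B) (fun c : ι → κ => (∏ i ∈ P \ B, w (c i)) *
        ∏ b ∈ S, ∑ b' ∈ Nb b, G (c b) (c b')) := by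
      intro c c' h
      have e1 : ∏ i ∈ P \ B, w (c i) = ∏ i ∈ P \ B, w (c' i) := Dep_prod (P \ B) w c c' h
      simp only [e1]
      congr 1
      refine Finset.prod_congr rfl fun b hbS => ?_
      rw [h b (hsub b hbS (mem_insert_self _ _))]
      exact Finset.sum_congr rfl fun b' hb' => by
        rw [h b' (hsub b hbS (mem_insert_of_mem hb'))]
    have h3 := Sp_union e hd hF hH
    have h4 : (fun c : ι → κ => (∏ i ∈ P, w (c i)) *
        ∏ b ∈ insert b0 S, ∑ b' ∈ Nb b, G (c b) (c b')) =
        (fun c => ((∏ i ∈ B, w (c i)) * ∑ b' ∈ Nb b0, G (c b0) (c b')) *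
          ((∏ i ∈ P \ B, w (c i)) * ∏ b ∈ S, ∑ b' ∈ Nb b, G (c b) (c b'))) := by
      funext c
      rw [Finset.prod_insert hb0, ← Finset.prod_sdiff hBP]
      ring
    have h5 := Sp_block e w hw ha G Pi hG hPi b0 (Nb b0) (hb b0)
    rw [← hB] at h5
    have hcard : P.card = B.card + (P \ B).card := by
      conv_lhs => rw [hPu]
      exact card_union_of_disjoint hd
    have h0 : 0 ≤ ∑ T, w T := le_trans zero_le_one ha
    calc Sp e P (fun c => (∏ i ∈ P, w (c i)) *
        ∏ b ∈ insert b0 S, ∑ b' ∈ Nb b, G (c b) (c b'))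
        = Sp e (B ∪ (P \ B)) (fun c => ((∏ i ∈ B, w (c i)) * ∑ b' ∈ Nb b0, G (c b0) (c b')) *
          ((∏ i ∈ P \ B, w (c i)) * ∏ b ∈ S, ∑ b' ∈ Nb b, G (c b) (c b'))) := by
          rw [h4, ← hPu]
      _ = _ := h3
      _ ≤ ((Nb b0).card * Pi * (∑ T, w T) ^ B.card) *
          ((K * Pi) ^ S.card * (∑ T, w T) ^ (P \ B).card) := by
          apply mul_le_mul h5 ih'
          · apply Sp_nonneg
            intro c
            exact mul_nonneg (Finset.prod_nonneg fun i _ => hw _)
              (Finset.prod_nonneg fun b _ => Finset.sum_nonneg fun b' _ => hG _ _)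
          · exact mul_nonneg (mul_nonneg (Nat.cast_nonneg _) hPi0) (pow_nonneg h0 _)
      _ ≤ (K * Pi * (∑ T, w T) ^ B.card) *
          ((K * Pi) ^ S.card * (∑ T, w T) ^ (P \ B).card) := by
          have hk : ((Nb b0).card : ℝ) ≤ K := by exact_mod_cast hK b0
          gcongr
      _ = _ := by
          rw [card_insert_of_notMem hb0, hcard, pow_succ, pow_add]
          ring

/-- greedy selection -/
theorem greedy (Nb : ι → Finset ι) (hsym : ∀ b b', b' ∈ Nb b → b ∈ Nb b')
    (K : ℕ) (hK : ∀ b, (Nb b).card ≤ K) (S : Finset ι) :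
    ∃ S1 ⊆ S, (∀ b ∈ S1, ∀ b' ∈ S1, b ≠ b' → Disjoint (insert b (Nb b)) (insert b' (Nb b'))) ∧
      S.card ≤ (K + 1) ^ 2 * S1.card := by
  classical
  obtain ⟨S1, hS1, hmax⟩ := (S.powerset.filter (fun A => ∀ b ∈ A, ∀ b' ∈ A, b ≠ b' →
    Disjoint (insert b (Nb b)) (insert b' (Nb b')))).exists_max_image (fun A => A.card)
    ⟨∅, by
      rw [mem_filter, mem_powerset]
      exact ⟨empty_subset _, fun b hb => absurd hb (notMem_empty b)⟩⟩
  rw [mem_filter, mem_powerset] at hS1
  refine ⟨S1, hS1.1, hS1.2, ?_⟩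
  have hcov : S ⊆ S1.biUnion (fun b1 => (insert b1 (Nb b1)).biUnion (fun u => insert u (Nb u))) := by
    intro b hb
    by_cases hbS1 : b ∈ S1
    · rw [mem_biUnion]
      exact ⟨b, hbS1, by rw [mem_biUnion]; exact ⟨b, mem_insert_self _ _, mem_insert_self _ _⟩⟩
    · by_contra hcon
      have h1 : ∀ b1 ∈ S1, Disjoint (insert b (Nb b)) (insert b1 (Nb b1)) := by
        intro b1 hb1
        rw [Finset.disjoint_left]
        intro u hu hu1
        apply hcon
        rw [mem_biUnion]
        refine ⟨b1, hb1, ?_⟩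
        rw [mem_biUnion]
        refine ⟨u, hu1, ?_⟩
        rw [mem_insert] at hu ⊢
        rcases hu with h | h
        · exact Or.inl h.symm
        · exact Or.inr (hsym _ _ h)
      have h2 : insert b S1 ∈ S.powerset.filter (fun A => ∀ b ∈ A, ∀ b' ∈ A, b ≠ b' →
          Disjoint (insert b (Nb b)) (insert b' (Nb b'))) := by
        rw [mem_filter, mem_powerset]
        refine ⟨insert_subset hb hS1.1, ?_⟩
        intro a ha a' ha' hne
        rw [mem_insert] at ha ha'
        rcases ha with rfl | ha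
        · rcases ha' with rfl | ha'
          · exact absurd rfl hne
          · exact h1 a' ha'
        · rcases ha' with rfl | ha'
          · exact (h1 a ha).symm
          · exact hS1.2 a ha a' ha' hne
      have h3 := hmax _ h2
      rw [card_insert_of_notMem hbS1] at h3
      omega
  have hcl : ∀ u, (insert u (Nb u)).card ≤ K + 1 := fun u =>
    (card_insert_le _ _).trans (Nat.add_le_add_right (hK u) 1)
  calc S.card ≤ _ := card_le_card hcov
    _ ≤ ∑ b1 ∈ S1, ((insert b1 (Nb b1)).biUnion (fun u => insert u (Nb u))).card := card_biUnion_le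
    _ ≤ ∑ _b1 ∈ S1, (K + 1) ^ 2 := by
        refine Finset.sum_le_sum fun b1 _ => ?_
        calc _ ≤ ∑ u ∈ insert b1 (Nb b1), (insert u (Nb u)).card := card_biUnion_le
          _ ≤ ∑ _u ∈ insert b1 (Nb b1), (K + 1) := Finset.sum_le_sum fun u _ => hcl u
          _ = (insert b1 (Nb b1)).card * (K + 1) := by rw [sum_const, smul_eq_mul]
          _ ≤ (K + 1) * (K + 1) := Nat.mul_le_mul_right _ (hcl b1)
          _ = _ := by ring
    _ = _ := by rw [sum_const, smul_eq_mul]; ring

end gen

/-! ### columns -/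

open Classical in
/-- the neighbours -/
noncomputable def nb {N : ℕ} (adj : Fin N → Fin N → Prop) (b : Fin N) : Finset (Fin N) :=
  univ.filter fun b' => adj b b'

theorem act_le {N : ℕ} (adj : Fin N → Fin N → Prop) :
    ∀ (q : ℕ) (C : Fin (tm q) → Fin N → Bool) (b : Fin N),
      act adj q C b ≤ ∑ b' ∈ nb adj b, jj q (fun t => C t b) (fun t => C t b')
  | 0, C, b => by
    classical
    simp only [act, jj]
    split_ifs with h
    · obtain ⟨h1, b', h2, h3⟩ := h
      have hb' : b' ∈ nb adj b := by unfold nb; rw [mem_filter]; exact ⟨mem_univ _, h2⟩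
      refine le_trans ?_ (Finset.single_le_sum (f := fun b' =>
        if (∃ t, C t b = true) ∧ (∃ t, C t b' = true) then 1 else 0)
        (fun _ _ => Nat.zero_le _) hb')
      rw [if_pos ⟨h1, h3⟩]
    · exact Nat.zero_le _
  | q + 1, C, b => by
    classical
    simp only [act, jj]
    rw [Finset.sum_add_distrib, Finset.sum_add_distrib]
    have h1 := act_le adj q (lf C) b
    have h2 := act_le adj q (rg C) b
    have h3 : (if occ C b ∧ ∃ b', adj b b' ∧ occ C b' then 1 else 0) ≤
        ∑ b' ∈ nb adj b, (if (∃ t, C t b = true) ∧ (∃ t, C t b' = true) then 1 else 0) := by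
      split_ifs with h
      · obtain ⟨h1, b', h2, h3⟩ := h
        have hb' : b' ∈ nb adj b := by unfold nb; rw [mem_filter]; exact ⟨mem_univ _, h2⟩
        refine le_trans ?_ (Finset.single_le_sum (f := fun b' =>
          if (∃ t, C t b = true) ∧ (∃ t, C t b' = true) then 1 else 0)
          (fun _ _ => Nat.zero_le _) hb')
        rw [if_pos ⟨h1, h3⟩]
      · exact Nat.zero_le _
    exact add_le_add (add_le_add h3 h1) h2

/-- the weight of the pair of columns: the indicator is at most the exponential moment -/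
theorem ind_le {N : ℕ} (adj : Fin N → Fin N → Prop) (K : ℕ) (hK1 : 1 ≤ K)
    (hK : ∀ b, (nb adj b).card ≤ K) (q r : ℕ) (C : Fin (tm q) → Fin N → Bool) (b : Fin N)
    (h : r < act adj q C b) :
    1 ≤ Real.exp (-(r / (10 * K))) *
      ∑ b' ∈ nb adj b, (9 / 8 : ℝ) ^ jj q (fun t => C t b) (fun t => C t b') := by
  classical
  have h1 : ∃ b' ∈ nb adj b, r < K * jj q (fun t => C t b) (fun t => C t b') := by
    by_contra hcon
    push Not at hcon
    have h2 := act_le adj q C b
    have h3 : K * act adj q C b ≤ K * r := by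
      calc K * act adj q C b ≤ K * ∑ b' ∈ nb adj b, jj q (fun t => C t b) (fun t => C t b') :=
            Nat.mul_le_mul_left _ h2
        _ = ∑ b' ∈ nb adj b, K * jj q (fun t => C t b) (fun t => C t b') := by rw [mul_sum]
        _ ≤ ∑ _b' ∈ nb adj b, r := Finset.sum_le_sum hcon
        _ = (nb adj b).card * r := by rw [sum_const, smul_eq_mul]
        _ ≤ K * r := Nat.mul_le_mul_right _ (hK b)
    have := Nat.le_of_mul_le_mul_left h3 (by omega)
    omega
  obtain ⟨b', hb', hr⟩ := h1
  set j := jj q (fun t => C t b) (fun t => C t b') with hj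
  have hKpos : (0 : ℝ) < K := by exact_mod_cast hK1
  have h4 : (r : ℝ) / (10 * K) ≤ j / 10 := by
    rw [div_le_div_iff₀ (by positivity) (by norm_num)]
    have : (r : ℝ) ≤ K * j := by exact_mod_cast hr.le
    nlinarith
  have h5 : Real.exp ((j : ℝ) / 10) ≤ (9 / 8 : ℝ) ^ j := by
    have h6 : Real.exp (1 / 10) ≤ 9 / 8 := by
      have h7 : Real.exp (1 / 10) ^ 10 ≤ (9 / 8 : ℝ) ^ 10 := by
        rw [← Real.exp_nat_mul]
        have h8 : (9 / 8 : ℝ) ^ 10 = 3486784401 / 1073741824 := by norm_num
        rw [h8]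
        have h9 := Real.exp_one_lt_d9
        norm_num
        linarith
      exact le_of_pow_le_pow_left₀ (by norm_num) (by norm_num) h7
    calc Real.exp ((j : ℝ) / 10) = Real.exp (1 / 10) ^ j := by
          rw [← Real.exp_nat_mul]; congr 1; ring
      _ ≤ _ := pow_le_pow_left₀ (Real.exp_pos _).le h6 _
  calc (1 : ℝ) = Real.exp (-(r / (10 * K))) * Real.exp (r / (10 * K)) := by
        rw [← Real.exp_add]; simp
    _ ≤ Real.exp (-(r / (10 * K))) * (9 / 8 : ℝ) ^ j := by
        apply mul_le_mul_of_nonneg_left _ (Real.exp_pos _).le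
        exact (Real.exp_le_exp.mpr h4).trans h5
    _ ≤ _ := by
        apply mul_le_mul_of_nonneg_left _ (Real.exp_pos _).le
        exact Finset.single_le_sum (f := fun b' =>
          (9 / 8 : ℝ) ^ jj q (fun t => C t b) (fun t => C t b')) (fun _ _ => by positivity) hb'

theorem wt_eq {M N : ℕ} (x : ℝ) (P : Finset (Fin N)) (C : Fin M → Fin N → Bool) :
    wt x P C = ∏ b ∈ P, x ^ cn (fun t => C t b) := by
  unfold wt
  rw [Finset.prod_comm, ← Finset.prod_subset (Finset.subset_univ P)]
  · refine Finset.prod_congr rfl fun b hb => ?_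
    rw [Finset.prod_ite]
    simp only [hb, true_and, prod_const, one_pow, mul_one]
    rfl
  · intro b _ hb
    apply Finset.prod_eq_one
    intro t _
    rw [if_neg (fun h => hb h.1)]

theorem sum_col (M : ℕ) (x : ℝ) : ∑ T : Fin M → Bool, x ^ cn T = (1 + x) ^ M := by
  have h := Finset.prod_univ_sum (ι := Fin M) (κ := fun _ => Bool)
    (t := fun _ => univ) (f := fun _ l => (if l = true then x else 1))
  rw [Fintype.piFinset_univ] at h
  simp only [Fintype.sum_bool, if_true, Bool.false_eq_true, if_false, prod_const, card_univ,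
    Fintype.card_fin] at h
  rw [add_comm, h]
  refine Finset.sum_congr rfl fun T _ => ?_
  rw [Finset.prod_ite]
  simp only [prod_const, one_pow, mul_one]
  rfl

set_option maxHeartbeats 2000000 in
theorem comb (hp : PAIR) : COMB := by
  classical
  intro N adj K hsym hirr hK1 hK q r x hx0 hx1 S P hP
  have hKnb : ∀ b, (nb adj b).card ≤ K := fun b => by
    have := hK b
    unfold nb
    convert this
  have hmem : ∀ b b', b' ∈ nb adj b ↔ adj b b' := fun b b' => by
    unfold nb; rw [mem_filter]; simp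
  obtain ⟨S1, hS1, hdis, hcard⟩ := greedy (nb adj)
    (fun b b' h => (hmem _ _).mpr (hsym _ _ ((hmem _ _).mp h))) K hKnb S
  have hPsub : ∀ b ∈ S1, insert b (nb adj b) ⊆ P := by
    intro b hb i hi
    rw [hP]
    rw [mem_insert] at hi
    rcases hi with rfl | hi
    · exact Or.inl (hS1 hb)
    · exact Or.inr ⟨b, hS1 hb, hsym _ _ ((hmem _ _).mp hi)⟩
  set w : (Fin (tm q) → Bool) → ℝ := fun T => x ^ cn T with hw
  have hwn : ∀ T, 0 ≤ w T := fun T => pow_nonneg hx0 _
  have hws : ∑ T, w T = (1 + x) ^ tm q := sum_col _ _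
  have ha : 1 ≤ ∑ T, w T := by rw [hws]; exact one_le_pow₀ (by linarith)
  set Pi : ℝ := 2 * Real.exp (7 * (tm q * x)) with hPi
  have hmain := Sp_main (ι := Fin N) (fun _ => false) w hwn ha
    (fun T T' => (9 / 8 : ℝ) ^ jj q T T') Pi (fun _ _ => by positivity) (hp q x hx0 hx1)
    (nb adj) (fun b h => hirr b ((hmem _ _).mp h)) K hKnb S1 P hPsub hdis
  set ρ : ℝ := Real.exp (-(r / (10 * K))) with hρ
  have hρ0 : 0 < ρ := Real.exp_pos _
  have hstep : (∑ C : Fin (tm q) → Fin N → Bool,
      if (∀ t b, b ∉ P → C t b = false) ∧ (∀ b ∈ S, r < act adj q C b) then wt x P C else 0) ≤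
      ρ ^ S1.card * Sp (fun _ => false) P (fun c : Fin N → Fin (tm q) → Bool =>
        (∏ i ∈ P, w (c i)) * ∏ b ∈ S1, ∑ b' ∈ nb adj b, (9 / 8 : ℝ) ^ jj q (c b) (c b')) := by
    unfold Sp
    rw [Finset.sum_filter, Finset.mul_sum]
    rw [← Equiv.sum_comp (Equiv.piComm (fun (_ : Fin N) (_ : Fin (tm q)) => Bool))]
    refine Finset.sum_le_sum fun c _ => ?_
    have hc : ∀ t b, (Equiv.piComm (fun (_ : Fin N) (_ : Fin (tm q)) => Bool)) c t b = c b t :=
      fun _ _ => rfl
    by_cases h1 : ∀ b, b ∉ P → c b = fun _ => false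
    · rw [if_pos h1]
      split_ifs with h2
      · rw [wt_eq]
        have h3 : (∏ b ∈ P, x ^ cn (fun t =>
            (Equiv.piComm (fun (_ : Fin N) (_ : Fin (tm q)) => Bool)) c t b)) =
            ∏ i ∈ P, w (c i) := rfl
        rw [h3]
        have h4 : 1 ≤ ∏ b ∈ S1, (ρ * ∑ b' ∈ nb adj b, (9 / 8 : ℝ) ^ jj q (c b) (c b')) := by
          calc (1 : ℝ) = ∏ _b ∈ S1, (1 : ℝ) := by rw [prod_const, one_pow]
            _ ≤ _ := Finset.prod_le_prod (fun _ _ => zero_le_one) fun b hb =>
                ind_le adj K hK1 hKnb q r _ b (h2.2 b (hS1 hb))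
        rw [Finset.prod_mul_distrib, prod_const] at h4
        have h5 : 0 ≤ ∏ i ∈ P, w (c i) := Finset.prod_nonneg fun i _ => hwn _
        calc ∏ i ∈ P, w (c i) = (∏ i ∈ P, w (c i)) * 1 := (mul_one _).symm
          _ ≤ (∏ i ∈ P, w (c i)) * (ρ ^ S1.card *
              ∏ b ∈ S1, ∑ b' ∈ nb adj b, (9 / 8 : ℝ) ^ jj q (c b) (c b')) :=
              mul_le_mul_of_nonneg_left h4 h5
          _ = _ := by ring
      · have h5 : 0 ≤ ∏ i ∈ P, w (c i) := Finset.prod_nonneg fun i _ => hwn _
        have h6 : 0 ≤ ∏ b ∈ S1, ∑ b' ∈ nb adj b, (9 / 8 : ℝ) ^ jj q (c b) (c b') :=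
          Finset.prod_nonneg fun b _ => Finset.sum_nonneg fun b' _ => by positivity
        exact mul_nonneg (pow_nonneg hρ0.le _) (mul_nonneg h5 h6)
    · rw [if_neg h1, mul_zero, if_neg]
      intro h2
      apply h1
      intro b hb
      funext t
      exact h2.1 t b hb
  have hK0 : (1 : ℝ) ≤ K := by exact_mod_cast hK1
  have hPc : P.card ≤ (K + 1) * S.card := by
    have h1 : P ⊆ S.biUnion (fun b => insert b (nb adj b)) := by
      intro b hb
      rw [mem_biUnion]
      rcases (hP b).mp hb with h | ⟨b', hb', h⟩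
      · exact ⟨b, h, mem_insert_self _ _⟩
      · exact ⟨b', hb', mem_insert_of_mem ((hmem _ _).mpr (hsym _ _ h))⟩
    calc P.card ≤ _ := card_le_card h1
      _ ≤ ∑ b ∈ S, (insert b (nb adj b)).card := card_biUnion_le
      _ ≤ ∑ _b ∈ S, (K + 1) := Finset.sum_le_sum fun b _ =>
          (card_insert_le _ _).trans (Nat.add_le_add_right (hKnb b) 1)
      _ = _ := by rw [sum_const, smul_eq_mul]; ring
  set X : ℝ := tm q * x with hX
  have hX0 : 0 ≤ X := by positivity
  have hS1c : S1.card ≤ S.card := card_le_card hS1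
  -- the four factors
  have e1 : ρ ^ S1.card ≤ Real.exp (-(S.card * (r / (10 * K * (K + 1) ^ 2)))) := by
    rw [hρ, ← Real.exp_nat_mul]
    apply Real.exp_le_exp.mpr
    have h1 : (S.card : ℝ) ≤ (K + 1) ^ 2 * S1.card := by exact_mod_cast hcard
    have h2 : (S.card : ℝ) * ((r : ℝ) / (10 * K * (K + 1) ^ 2)) ≤ (S1.card : ℝ) * ((r : ℝ) / (10 * K)) := by
      calc (S.card : ℝ) * ((r : ℝ) / (10 * K * (K + 1) ^ 2)) ≤
          ((K + 1) ^ 2 * (S1.card : ℝ)) * ((r : ℝ) / (10 * K * (K + 1) ^ 2)) := by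
            apply mul_le_mul_of_nonneg_right h1 (by positivity)
        _ = (S1.card : ℝ) * ((r : ℝ) / (10 * K)) := by
            have hk : (K : ℝ) ≠ 0 := by positivity
            field_simp
    have h3 : (S1.card : ℝ) * -((r : ℝ) / (10 * K)) = -((S1.card : ℝ) * ((r : ℝ) / (10 * K))) := by ring
    rw [h3]
    exact neg_le_neg h2
  have e2 : (K * Pi) ^ S1.card ≤ Real.exp (S.card * ((K + 1) + 7 * X)) := by
    have h1 : 1 ≤ K * Pi := by
      have : 1 ≤ Pi := by
        rw [hPi]
        have := Real.add_one_le_exp (7 * (tm q * x))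
        nlinarith
      nlinarith
    have h2 : K * Pi ≤ Real.exp ((K + 1) + 7 * X) := by
      rw [Real.exp_add, hPi]
      have h3 : 2 * (K : ℝ) ≤ Real.exp (K + 1) := by
        rw [Real.exp_add]
        have a1 := Real.add_one_le_exp (K : ℝ)
        have a2 := Real.add_one_le_exp (1 : ℝ)
        nlinarith [Real.exp_pos (K : ℝ)]
      have h4 := Real.exp_pos (7 * X)
      calc K * (2 * Real.exp (7 * (tm q * x))) = (2 * K) * Real.exp (7 * X) := by ring
        _ ≤ _ := mul_le_mul_of_nonneg_right h3 h4.le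
    calc (K * Pi) ^ S1.card ≤ (K * Pi) ^ S.card := pow_le_pow_right₀ h1 hS1c
      _ ≤ (Real.exp ((K + 1) + 7 * X)) ^ S.card := pow_le_pow_left₀ (by linarith) h2 _
      _ = _ := by rw [← Real.exp_nat_mul]
  have e3 : (∑ T, w T) ^ P.card ≤ Real.exp (S.card * ((K + 1) * X)) := by
    rw [hws, ← pow_mul]
    calc (1 + x) ^ (tm q * P.card) ≤ (Real.exp x) ^ (tm q * P.card) := by
          apply pow_le_pow_left₀ (by linarith)
          have := Real.add_one_le_exp x
          linarith
      _ = Real.exp ((tm q * P.card : ℕ) * x) := by rw [← Real.exp_nat_mul]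
      _ ≤ _ := by
          apply Real.exp_le_exp.mpr
          have h1 : (P.card : ℝ) ≤ (K + 1) * S.card := by exact_mod_cast hPc
          push_cast
          calc (tm q : ℝ) * P.card * x = P.card * X := by rw [hX]; ring
            _ ≤ ((K + 1) * S.card) * X := mul_le_mul_of_nonneg_right h1 hX0
            _ = _ := by ring
  calc _ ≤ ρ ^ S1.card * ((K * Pi) ^ S1.card * (∑ T, w T) ^ P.card) :=
        hstep.trans (mul_le_mul_of_nonneg_left hmain (by positivity))
    _ ≤ Real.exp (-(S.card * (r / (10 * K * (K + 1) ^ 2)))) *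
        (Real.exp (S.card * ((K + 1) + 7 * X)) * Real.exp (S.card * ((K + 1) * X))) := by
        have h0 : 0 ≤ ∑ T, w T := le_trans zero_le_one ha
        gcongr
    _ = Real.exp (S.card * ((K + 1) + 7 * X + (K + 1) * X - r / (10 * K * (K + 1) ^ 2))) := by
        rw [← Real.exp_add, ← Real.exp_add]
        congr 1
        ring
    _ ≤ Real.exp (S.card * (20 * (K + 1) ^ 2 * (1 + X) - r / (10 * K * (K + 1) ^ 2))) := by
        apply Real.exp_le_exp.mpr
        apply mul_le_mul_of_nonneg_left _ (by positivity)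
        have h1 : (K : ℝ) + 1 ≤ 20 * (K + 1) ^ 2 := by nlinarith
        have h2 : 7 * X + (K + 1) * X ≤ 20 * (K + 1) ^ 2 * X := by
          have : 7 + ((K : ℝ) + 1) ≤ 20 * (K + 1) ^ 2 := by nlinarith
          nlinarith
        linarith
    _ = _ := by rw [← Real.exp_nat_mul]

end Pool.Agent.TH287.PQ
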